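import Pool.Agent.W2helper16.GL.Rl

/-!
# Assembly
-/

set_option autoImplicit false
set_option linter.unusedSectionVars false
set_option linter.unusedSimpArgs false
set_option backward.isDefEq.respectTransparency false
set_option backward.defeqAttrib.useBackward true

open CategoryTheory Limits MonoidalCategory
open Pool.Agent.Y112.SR Pool.Agent.Y112.SC Pool.Agent.Y112.KD

namespace Pool.Agent.W2helper16.GL

universe u v w

open Functor.LaxMonoidal Functor.OplaxMonoidal

section

variable {C : Type u} [Category.{v} C] [Preadditive C] [MonoidalCategory C] [SymmetricCategory C]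
  {K : Type w} [Field K] (R : SuperRealisation C K) {M P : C}

section gen

variable {ι : Type} [Fintype ι] [DecidableEq ι] (b : Module.Basis ι K (R.H.obj M))

/-- The matrix of an operator. -/
noncomputable def mt (X : R.H.obj (M ⊗ P) ⟶ R.H.obj (M ⊗ P)) :
    Matrix ι ι (Module.End K (R.H.obj P)) := fun z y => (cm R b X z y).hom

lemma mt_comp (X Y : R.H.obj (M ⊗ P) ⟶ R.H.obj (M ⊗ P)) : mt R b (X ≫ Y) = mt R b Y * mt R b X := by
  ext1 z y
  rw [Matrix.mul_apply, mt, cm_comp, ModuleCat.hom_sum]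
  rfl

lemma mt_one : mt R b (𝟙 (R.H.obj (M ⊗ P))) = 1 := by
  ext1 z y
  rw [mt, ← bx_one, cm_wl, Matrix.one_apply]
  split_ifs <;> rfl

lemma mt_inj {X Y : R.H.obj (M ⊗ P) ⟶ R.H.obj (M ⊗ P)} (h : mt R b X = mt R b Y) : X = Y := by
  rw [cm_rec R b X, cm_rec R b Y]
  refine Finset.sum_congr rfl fun z _ => Finset.sum_congr rfl fun y _ => ?_
  have h1 : (cm R b X z y).hom = (cm R b Y z y).hom := congrFun (congrFun h z) y
  rw [ModuleCat.hom_ext h1]

lemma mt_pow (f : M ⊗ P ⟶ M ⊗ P) (n : ℕ) :
    ∃ g : M ⊗ P ⟶ M ⊗ P, mt R b (R.H.map g) = (mt R b (R.H.map f)) ^ n := by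
  induction n with
  | zero => exact ⟨𝟙 _, by rw [CategoryTheory.Functor.map_id, mt_one, pow_zero]⟩
  | succ n ih =>
    obtain ⟨g, hg⟩ := ih
    exact ⟨f ≫ g, by rw [Functor.map_comp, mt_comp, hg, pow_succ]⟩

/-- The parity of the components. -/
lemma cm_par {sg : ι → K} (hs : ∀ x, (R.par M).hom (b x) = sg x • b x)
    (hsg : ∀ x, sg x * sg x = 1) (f : M ⊗ P ⟶ M ⊗ P) (z y : ι) :
    R.par P ≫ cm R b (R.H.map f) z y ≫ R.par P = (sg z * sg y) • cm R b (R.H.map f) z y := by
  have h1 := R.par_natural f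
  rw [← bx_par] at h1
  have h2 := congrArg (fun X => cm R b X z y) h1
  simp only [cm_comp] at h2
  rw [Finset.sum_eq_single z, Finset.sum_eq_single y] at h2
  · rw [cm_bx, cm_bx, hs, hs, map_smul, map_smul, Module.Basis.coord_apply,
      Module.Basis.repr_self, Module.Basis.coord_apply, Module.Basis.repr_self,
      Finsupp.single_eq_same, Finsupp.single_eq_same, smul_eq_mul, mul_one, smul_eq_mul, mul_one,
      Linear.comp_smul, Linear.smul_comp] at h2
    have h3 : (cm R b (R.H.map f) z y ≫ R.par P) =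
        (sg z * sg y) • (R.par P ≫ cm R b (R.H.map f) z y) := by
      have h4 := congrArg (fun X => sg z • X) h2
      simp only [smul_smul, hsg, one_smul] at h4
      exact h4
    rw [h3, Linear.comp_smul, ← Category.assoc, R.par_sq, Category.id_comp]
  · intro t _ ht
    rw [cm_bx, hs, map_smul, Module.Basis.coord_apply, Module.Basis.repr_self,
      Finsupp.single_eq_of_ne ht, smul_zero, zero_smul, zero_comp]
  · intro h
    exact absurd (Finset.mem_univ _) h
  · intro t _ ht
    rw [cm_bx, hs, map_smul, Module.Basis.coord_apply, Module.Basis.repr_self,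
      Finsupp.single_eq_of_ne (fun h => ht h.symm), smul_zero, zero_smul, comp_zero]
  · intro h
    exact absurd (Finset.mem_univ _) h

end gen

section two

variable {p q : ℕ} (b : Module.Basis (Fin p ⊕ Fin q) K (R.H.obj M))

/-- The signs. -/
def sg2 (K : Type w) [Field K] (p q : ℕ) : Fin p ⊕ Fin q → K := Sum.elim (fun _ => 1) fun _ => -1

lemma rel_of_action (h2 : (2 : K) ≠ 0) (hs : ∀ x, (R.par M).hom (b x) = sg2 K p q x • b x)
    {Ω : M ⊗ P ⟶ M ⊗ P} (hΩ : IsGlAction R Ω) :
    Rel (mt R b (R.H.map Ω)).toBlocks₁₁ (mt R b (R.H.map Ω)).toBlocks₁₂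
      (mt R b (R.H.map Ω)).toBlocks₂₁ (mt R b (R.H.map Ω)).toBlocks₂₂ := by
  have hh : ∀ u x z y, (eps (sg2 K p q) x z * eps (sg2 K p q) z u) •
      (mt R b (R.H.map Ω) u x * mt R b (R.H.map Ω) z y) -
      (eps (sg2 K p q) x y * eps (sg2 K p q) y u) •
        (mt R b (R.H.map Ω) z y * mt R b (R.H.map Ω) u x) =
      eps (sg2 K p q) x u • (if u = y then mt R b (R.H.map Ω) z x else 0) -
      eps (sg2 K p q) x u • (if z = x then mt R b (R.H.map Ω) u y else 0) := by
    intro u x z y
    have h3 := congrArg ModuleCat.Hom.hom (rel_cm R b h2 hs hΩ u x z y)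
    rw [ModuleCat.hom_sub, ModuleCat.hom_sub, ModuleCat.hom_smul, ModuleCat.hom_smul,
      ModuleCat.hom_smul, ModuleCat.hom_smul] at h3
    refine Eq.trans h3 ?_
    congr 1
    · congr 1
      split_ifs <;> rfl
    · congr 1
      split_ifs <;> rfl
  have e11 : ∀ a a' : Fin p, eps (sg2 K p q) (Sum.inl a) (Sum.inl a') = 1 := by
    intro a a'
    simp only [eps, sg2, Sum.elim_inl]
    field_simp
    norm_num
  have e12 : ∀ (a : Fin p) (x : Fin q), eps (sg2 K p q) (Sum.inl a) (Sum.inr x) = 1 := by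
    intro a x
    simp only [eps, sg2, Sum.elim_inl, Sum.elim_inr]
    field_simp
    norm_num
  have e21 : ∀ (a : Fin p) (x : Fin q), eps (sg2 K p q) (Sum.inr x) (Sum.inl a) = 1 := by
    intro a x
    simp only [eps, sg2, Sum.elim_inl, Sum.elim_inr]
    field_simp
    norm_num
  have e22 : ∀ x x' : Fin q, eps (sg2 K p q) (Sum.inr x) (Sum.inr x') = -1 := by
    intro x x'
    simp only [eps, sg2, Sum.elim_inr]
    field_simp
    norm_num
  constructor
  · intro a a' a'' x
    have h := hh (Sum.inl a) (Sum.inl a') (Sum.inr x) (Sum.inl a'')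
    simp only [e11, e12, e21, one_smul, mul_one, Sum.inl.injEq, reduceCtorEq, if_false,
      sub_zero] at h
    exact h
  · intro a a' a'' x
    have h := hh (Sum.inl a) (Sum.inl a') (Sum.inl a'') (Sum.inr x)
    simp only [e11, e12, e21, one_smul, mul_one, Sum.inl.injEq, reduceCtorEq, if_false,
      zero_sub, eq_comm (a := a'')] at h
    exact h
  · intro x x' x'' a
    have h := hh (Sum.inr x) (Sum.inr x') (Sum.inl a) (Sum.inr x'')
    simp only [e12, e21, e22, one_smul, mul_one, Sum.inr.injEq, reduceCtorEq, if_false,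
      smul_zero, sub_zero, neg_mul_neg, neg_smul] at h
    exact h
  · intro x x' x'' a
    have h := hh (Sum.inr x) (Sum.inr x') (Sum.inr x'') (Sum.inl a)
    simp only [e12, e21, e22, one_smul, mul_one, Sum.inr.injEq, reduceCtorEq, if_false,
      smul_zero, zero_sub, neg_mul_neg, neg_smul, neg_neg, eq_comm (a := x'')] at h
    exact h
  · intro a a' x x'
    have h := hh (Sum.inr x) (Sum.inl a) (Sum.inl a') (Sum.inr x')
    simp only [e11, e12, e21, e22, one_smul, mul_one, one_mul, Sum.inr.injEq, Sum.inl.injEq,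
      neg_smul, sub_neg_eq_add, eq_comm (a := a')] at h
    exact h

end two

end

end Pool.Agent.W2helper16.GL
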