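import Pool.Agent.W2helper16.GL.Stm

/-!
# Components of operators on `H(M ⊗ P)` with respect to a basis of `H(M)`
-/

set_option autoImplicit false
set_option linter.unusedSectionVars false
set_option linter.unusedSimpArgs false
set_option backward.isDefEq.respectTransparency false
set_option backward.defeqAttrib.useBackward true

open CategoryTheory Limits MonoidalCategory
open Pool.Agent.Y112.SR Pool.Agent.Y112.SC Pool.Agent.Y112.KD

namespace Pool.Agent.W2helper16.GL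

universe u v w

open Functor.LaxMonoidal Functor.OplaxMonoidal

section

variable {C : Type u} [Category.{v} C] [Preadditive C] [MonoidalCategory C] [SymmetricCategory C]
  {K : Type w} [Field K] (R : SuperRealisation C K) {M P : C} {ι : Type} [Fintype ι]
  [DecidableEq ι] (b : Module.Basis ι K (R.H.obj M))

/-- The elementary operator `b y ↦ b z`. -/
noncomputable def EE (z y : ι) : R.H.obj M ⟶ R.H.obj M :=
  ModuleCat.ofHom ((b.coord y).smulRight (b z))

lemma EE_apply (z y : ι) (v : R.H.obj M) : (EE R b z y).hom v = b.coord y v • b z := rfl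

lemma EE_basis (z y x : ι) : (EE R b z y).hom (b x) = if x = y then b z else 0 := by
  rw [EE_apply, Module.Basis.coord_apply, Module.Basis.repr_self, Finsupp.single_apply]
  split_ifs <;> simp

lemma EE_comp (z y z' y' : ι) : EE R b z' y' ≫ EE R b z y = if y = z' then EE R b z y' else 0 := by
  apply ModuleCat.hom_ext
  apply b.ext
  intro x
  rw [ModuleCat.hom_comp, LinearMap.comp_apply, EE_basis]
  split_ifs with h1 h2 h2
  · subst h1; subst h2; rw [EE_basis, if_pos rfl, EE_basis, if_pos rfl]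
  · rw [EE_basis, if_neg (fun h => h2 h.symm)]; simp
  · rw [map_zero, EE_basis, if_neg h1]
  · simp

lemma sum_EE : ∑ z, EE R b z z = 𝟙 _ := by
  apply ModuleCat.hom_ext
  apply b.ext
  intro x
  rw [ModuleCat.hom_sum, LinearMap.sum_apply]
  simp [EE_basis]

/-- The component in row `z` and column `y`. -/
noncomputable def cm (X : R.H.obj (M ⊗ P) ⟶ R.H.obj (M ⊗ P)) (z y : ι) :
    R.H.obj P ⟶ R.H.obj P :=
  ModuleCat.ofHom ((TensorProduct.lid K (R.H.obj P)).toLinearMap ∘ₗ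
    (b.coord z).rTensor (R.H.obj P) ∘ₗ (μ R.H M P ≫ X ≫ δ R.H M P).hom ∘ₗ
      (TensorProduct.mk K (R.H.obj M) (R.H.obj P) (b y)))

lemma cm_add (X Y : R.H.obj (M ⊗ P) ⟶ R.H.obj (M ⊗ P)) (z y : ι) :
    cm R b (X + Y) z y = cm R b X z y + cm R b Y z y := by
  apply ModuleCat.hom_ext
  ext w
  simp [cm]

lemma cm_bx (f : R.H.obj M ⟶ R.H.obj M) (g : R.H.obj P ⟶ R.H.obj P) (z y : ι) :
    cm R b (bx R f g) z y = (b.coord z (f.hom (b y))) • g := by
  have h1 : μ R.H M P ≫ bx R f g ≫ δ R.H M P = f ⊗ₘ g := by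
    simp [bx]
  apply ModuleCat.hom_ext
  ext w
  rw [cm, h1]
  simp
  rfl

/-- The operator seen on the tensor product. -/
noncomputable def ct (X : R.H.obj (M ⊗ P) ⟶ R.H.obj (M ⊗ P)) :
    TensorProduct K (R.H.obj M) (R.H.obj P) →ₗ[K] TensorProduct K (R.H.obj M) (R.H.obj P) :=
  (μ R.H M P ≫ X ≫ δ R.H M P).hom

lemma ct_comp (X Y : R.H.obj (M ⊗ P) ⟶ R.H.obj (M ⊗ P)) : ct R (X ≫ Y) = ct R Y ∘ₗ ct R X := by
  have h : μ R.H M P ≫ (X ≫ Y) ≫ δ R.H M P =
      (μ R.H M P ≫ X ≫ δ R.H M P) ≫ (μ R.H M P ≫ Y ≫ δ R.H M P) := by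
    simp
  rw [ct, h]
  rfl

lemma ct_inj {X Y : R.H.obj (M ⊗ P) ⟶ R.H.obj (M ⊗ P)} (h : ct R X = ct R Y) : X = Y := by
  have h1 : μ R.H M P ≫ X ≫ δ R.H M P = μ R.H M P ≫ Y ≫ δ R.H M P := ModuleCat.hom_ext h
  have h2 := congrArg (fun z => δ R.H M P ≫ z ≫ μ R.H M P) h1
  simpa using h2

lemma cm_apply (X : R.H.obj (M ⊗ P) ⟶ R.H.obj (M ⊗ P)) (z y : ι) (w : R.H.obj P) :
    (cm R b X z y).hom w = TensorProduct.lid K (R.H.obj P)
      ((b.coord z).rTensor (R.H.obj P) (ct R X (b y ⊗ₜ w))) := rfl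

lemma cm_smul (k : K) (X : R.H.obj (M ⊗ P) ⟶ R.H.obj (M ⊗ P)) (z y : ι) :
    cm R b (k • X) z y = k • cm R b X z y := by
  apply ModuleCat.hom_ext
  apply LinearMap.ext
  intro w
  have h1 : ct R (k • X) = k • ct R X := by
    rw [ct, Linear.smul_comp, Linear.comp_smul]
    rfl
  rw [cm_apply, h1, LinearMap.smul_apply, map_smul, map_smul]
  rfl

omit [DecidableEq ι] in
lemma tens_rec (t : TensorProduct K (R.H.obj M) (R.H.obj P)) :
    t = ∑ z, b z ⊗ₜ[K] (TensorProduct.lid K (R.H.obj P) ((b.coord z).rTensor (R.H.obj P) t)) := by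
  induction t with
  | zero => simp
  | tmul v w =>
    conv_lhs => rw [← b.sum_repr v]
    rw [TensorProduct.sum_tmul]
    refine Finset.sum_congr rfl fun z _ => ?_
    rw [LinearMap.rTensor_tmul, TensorProduct.lid_tmul, TensorProduct.tmul_smul,
      TensorProduct.smul_tmul', Module.Basis.coord_apply]
  | add x y hx hy =>
    simp only [map_add, TensorProduct.tmul_add, Finset.sum_add_distrib]
    rw [← hx, ← hy]

lemma ct_basis (X : R.H.obj (M ⊗ P) ⟶ R.H.obj (M ⊗ P)) (y : ι) (w : R.H.obj P) :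
    ct R X (b y ⊗ₜ w) = ∑ z, b z ⊗ₜ[K] ((cm R b X z y).hom w) :=
  tens_rec R b _

lemma ct_sum {κ : Type} (s : Finset κ) (X : κ → (R.H.obj (M ⊗ P) ⟶ R.H.obj (M ⊗ P))) :
    ct R (∑ i ∈ s, X i) = ∑ i ∈ s, ct R (X i) := by
  simp only [ct, Preadditive.sum_comp, Preadditive.comp_sum, ModuleCat.hom_sum]

lemma ct_bx (f : R.H.obj M ⟶ R.H.obj M) (g : R.H.obj P ⟶ R.H.obj P) (v : R.H.obj M)
    (w : R.H.obj P) : ct R (bx R f g) (v ⊗ₜ w) = f.hom v ⊗ₜ g.hom w := by
  have h1 : μ R.H M P ≫ bx R f g ≫ δ R.H M P = f ⊗ₘ g := by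
    simp [bx]
  rw [ct, h1]
  rfl

/-- The decomposition of an operator. -/
lemma cm_rec (X : R.H.obj (M ⊗ P) ⟶ R.H.obj (M ⊗ P)) :
    X = ∑ z, ∑ y, bx R (EE R b z y) (cm R b X z y) := by
  apply ct_inj R
  apply TensorProduct.ext
  apply b.ext
  intro x
  apply LinearMap.ext
  intro w
  change ct R X (b x ⊗ₜ w) = ct R (∑ z, ∑ y, bx R (EE R b z y) (cm R b X z y)) (b x ⊗ₜ w)
  rw [ct_basis R b, ct_sum, LinearMap.sum_apply]
  refine Finset.sum_congr rfl fun z _ => ?_
  rw [ct_sum, LinearMap.sum_apply, Finset.sum_eq_single x]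
  · rw [ct_bx, EE_basis, if_pos rfl]
  · intro y _ hy
    rw [ct_bx, EE_basis, if_neg (fun h => hy h.symm), TensorProduct.zero_tmul]
  · intro h
    exact absurd (Finset.mem_univ x) h

lemma cm_comp (X Y : R.H.obj (M ⊗ P) ⟶ R.H.obj (M ⊗ P)) (z y : ι) :
    cm R b (X ≫ Y) z y = ∑ u, cm R b X u y ≫ cm R b Y z u := by
  apply ModuleCat.hom_ext
  apply LinearMap.ext
  intro w
  rw [cm_apply, ct_comp, LinearMap.comp_apply, ct_basis R b, map_sum, map_sum, map_sum,
    ModuleCat.hom_sum, LinearMap.sum_apply]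
  rfl

end

section

variable {C : Type u} [Category.{v} C] [Preadditive C] [Linear ℚ C] [MonoidalCategory C]
  [MonoidalPreadditive C] [MonoidalLinear ℚ C] [SymmetricCategory C]
  [RightRigidCategory C] {K : Type w} [Field K] (R : SuperRealisation C K) {M P : C} {ι : Type}
  [Fintype ι] [DecidableEq ι] (b : Module.Basis ι K (R.H.obj M))

lemma PT_sum {κ : Type} (s : Finset κ) (X : κ → (R.H.obj (M ⊗ P) ⟶ R.H.obj (M ⊗ P))) :
    PT R (∑ i ∈ s, X i) = ∑ i ∈ s, PT R (X i) := by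
  classical
  induction s using Finset.induction_on with
  | empty =>
    simp only [Finset.sum_empty]
    have := PT_smul R (0 : K) (0 : R.H.obj (M ⊗ P) ⟶ R.H.obj (M ⊗ P))
    simpa using this
  | insert a s ha ih => rw [Finset.sum_insert ha, Finset.sum_insert ha, PT_add, ih]

/-- The partial trace in terms of the components. -/
lemma cm_PT (X : R.H.obj (M ⊗ P) ⟶ R.H.obj (M ⊗ P)) :
    PT R X = ∑ z, ∑ y, (LinearMap.trace K (R.H.obj P) (cm R b X z y ≫ R.par P).hom) •
      EE R b z y := by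
  have hK := R_charZero R
  conv_lhs => rw [cm_rec R b X]
  rw [PT_sum]
  refine Finset.sum_congr rfl fun z _ => ?_
  rw [PT_sum]
  refine Finset.sum_congr rfl fun y _ => ?_
  rw [PT_bx R two_ne_zero]

end

end Pool.Agent.W2helper16.GL
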