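import Pool.Agent.W2helper16.GL.Asm

/-!
# The main theorem from the pieces
-/

set_option autoImplicit false
set_option linter.unusedSectionVars false
set_option linter.unusedSimpArgs false
set_option backward.isDefEq.respectTransparency false
set_option backward.defeqAttrib.useBackward true

open CategoryTheory Limits MonoidalCategory
open Pool.Agent.Y112.SR Pool.Agent.Y112.SC Pool.Agent.Y112.KD

namespace Pool.Agent.W2helper16.GL

universe u v w

open Functor.LaxMonoidal Functor.OplaxMonoidal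

section

variable {C : Type u} [Category.{v} C] [Preadditive C] [Linear ℚ C] [MonoidalCategory C]
  [MonoidalPreadditive C] [MonoidalLinear ℚ C] [SymmetricCategory C]
  [RightRigidCategory C] {K : Type w} [Field K] (R : SuperRealisation C K) {M P : C}
  {p q : ℕ} (b : Module.Basis (Fin p ⊕ Fin q) K (R.H.obj M))

lemma pe_eq (h2 : (2 : K) ≠ 0) (hs : ∀ x, (R.par M).hom (b x) = sg2 K p q x • b x) :
    pe R M = ∑ a, EE R b (Sum.inl a) (Sum.inl a) := by
  apply ModuleCat.hom_ext
  apply b.ext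
  intro x
  rw [pe, ModuleCat.hom_smul, ModuleCat.hom_add, LinearMap.smul_apply, LinearMap.add_apply, hs,
    ModuleCat.hom_sum, LinearMap.sum_apply]
  rcases x with x | x
  · rw [Finset.sum_eq_single x]
    · rw [EE_basis, if_pos rfl, sg2, Sum.elim_inl, ModuleCat.hom_id, LinearMap.id_apply, one_smul,
        ← two_smul K, smul_smul, inv_mul_cancel₀ h2, one_smul]
    · intro t _ ht
      rw [EE_basis, if_neg (fun h => ht (Sum.inl.inj h).symm)]
    · intro h
      exact absurd (Finset.mem_univ _) h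
  · rw [Finset.sum_eq_zero]
    · rw [sg2, Sum.elim_inr, ModuleCat.hom_id, LinearMap.id_apply, neg_smul, one_smul,
        add_neg_cancel, smul_zero]
    · intro t _
      rw [EE_basis, if_neg (by simp)]

lemma po_eq (h2 : (2 : K) ≠ 0) (hs : ∀ x, (R.par M).hom (b x) = sg2 K p q x • b x) :
    po R M = ∑ a, EE R b (Sum.inr a) (Sum.inr a) := by
  have h3 := pe_add_po R h2 M
  have h4 := sum_EE R b
  rw [Fintype.sum_sum_type, ← pe_eq R b h2 hs] at h4
  rw [← h3] at h4
  exact (add_left_cancel h4).symm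

/-- The realisation of the partial trace of `g ≫ (M ◁ r)` where `r` realises the parity. -/
lemma map_ptr_r (g : M ⊗ P ⟶ M ⊗ P) (r : P ⟶ P) (hr : R.H.map r = R.par P) :
    R.H.map (ptr (g ≫ M ◁ r)) =
      ∑ z, ∑ y, (LinearMap.trace K (R.H.obj P) (mt R b (R.H.map g) z y)) • EE R b z y := by
  rw [← PT_map, cm_PT R b]
  refine Finset.sum_congr rfl fun z _ => Finset.sum_congr rfl fun y _ => ?_
  rw [Functor.map_comp, map_wl, cm_comp_wl, hr, Category.assoc, R.par_sq, Category.comp_id]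
  rfl

theorem main_of (hLA1 : StmLA1.{w, w}) (hLA2 : StmLA2.{w, w}) (hLA3 : StmLA3.{w, w})
    (hLA4 : StmLA4.{w, w}) (hLA5 : StmLA5.{w, w}) (hRAT : StmRAT.{u, v, w})
    (hBAS : StmBAS.{w, w}) (hU : UnitQ C) (M P : C)
    (hχ : LinearMap.trace K (R.H.obj M) (R.par M).hom ≠ 0) (Ω : M ⊗ P ⟶ M ⊗ P)
    (hΩ : IsGlAction R Ω)
    (hne : ∀ c : R.H.obj P ⟶ R.H.obj P, R.H.map Ω ≠ bx R (𝟙 (R.H.obj M)) c)
    (hP : R.CPlus P) : R.CPlus M := by
  have hK := R_charZero R
  have h2 : (2 : K) ≠ 0 := two_ne_zero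
  have hV := R.finite M
  have hW := R.finite P
  by_contra hC
  have hsq : ((R.par M).hom : Module.End K (R.H.obj M)) * (R.par M).hom = 1 := by
    have := congrArg ModuleCat.Hom.hom (R.par_sq M)
    exact this
  obtain ⟨p, q, b, hb1, hb2, htr⟩ := hBAS K (R.H.obj M) (R.par M).hom hsq
  have hs : ∀ x, (R.par M).hom (b x) = sg2 K p q x • b x := by
    rintro (x | x)
    · rw [sg2, Sum.elim_inl, one_smul]; exact hb1 x
    · rw [sg2, Sum.elim_inr, neg_smul, one_smul]; exact hb2 x
  have hsg : ∀ x, sg2 K p q x * sg2 K p q x = 1 := by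
    rintro (x | x)
    · rw [sg2, Sum.elim_inl, mul_one]
    · rw [sg2, Sum.elim_inr, neg_mul_neg, mul_one]
  have hpq : (p : K) - q ≠ 0 := by rw [← htr]; exact hχ
  have hpe : pe R M ≠ 0 := by
    intro h0
    apply hC
    rw [cplus_iff]
    refine ⟨-𝟙 M, ?_⟩
    rw [Functor.map_neg, CategoryTheory.Functor.map_id, ← pe_add_po R h2, ← pe_sub_po R h2, h0]
    abel
  have hpo : po R M ≠ 0 := by
    intro h0
    apply hC
    rw [cplus_iff]
    refine ⟨𝟙 M, ?_⟩
    rw [CategoryTheory.Functor.map_id, ← pe_add_po R h2, ← pe_sub_po R h2, h0]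
    abel
  have hNA : Nonempty (Fin p) := by
    by_contra h0
    rw [not_nonempty_iff] at h0
    apply hpe
    rw [pe_eq R b h2 hs, Finset.univ_eq_empty, Finset.sum_empty]
  have hNB : Nonempty (Fin q) := by
    by_contra h0
    rw [not_nonempty_iff] at h0
    apply hpo
    rw [po_eq R b h2 hs, Finset.univ_eq_empty, Finset.sum_empty]
  obtain ⟨r, hr⟩ := (cplus_iff R P).mp hP
  set T := mt R b (R.H.map Ω) with hT
  set F := T.toBlocks₁₂ with hF
  set G := T.toBlocks₂₁ with hG
  have hRel : Rel T.toBlocks₁₁ F G T.toBlocks₂₂ := rel_of_action R b h2 hs hΩ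
  -- the odd part of the coupling
  have hOm : ∃ f : M ⊗ P ⟶ M ⊗ P, mt R b (R.H.map f) = Matrix.fromBlocks 0 F G 0 := by
    refine ⟨(2⁻¹ : ℚ) • (Ω - M ◁ r ≫ Ω ≫ M ◁ r), ?_⟩
    have h3 : ∀ z y, cm R b (R.H.map ((2⁻¹ : ℚ) • (Ω - M ◁ r ≫ Ω ≫ M ◁ r))) z y =
        (2⁻¹ * (1 - sg2 K p q z * sg2 K p q y)) • cm R b (R.H.map Ω) z y := by
      intro z y
      rw [R_smul, Functor.map_sub, Functor.map_comp, Functor.map_comp, map_wl, hr, cm_smul, cm_sub,
        cm_wl_comp, cm_comp_wl, cm_par R b hs hsg]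
      push_cast
      module
    have h4 : ∀ z y, mt R b (R.H.map ((2⁻¹ : ℚ) • (Ω - M ◁ r ≫ Ω ≫ M ◁ r))) z y =
        (2⁻¹ * (1 - sg2 K p q z * sg2 K p q y)) • T z y := by
      intro z y
      rw [hT, mt, h3, ModuleCat.hom_smul]
      rfl
    ext1 z y
    rw [h4]
    rcases z with z | z <;> rcases y with y | y
    · rw [sg2, Sum.elim_inl, Sum.elim_inl, mul_one, sub_self, mul_zero, zero_smul]
      rfl
    · rw [sg2, Sum.elim_inl, Sum.elim_inr, one_mul, sub_neg_eq_add, one_add_one_eq_two,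
        inv_mul_cancel₀ h2, one_smul]
      rfl
    · rw [sg2, Sum.elim_inl, Sum.elim_inr, mul_one, sub_neg_eq_add, one_add_one_eq_two,
        inv_mul_cancel₀ h2, one_smul]
      rfl
    · rw [sg2, Sum.elim_inr, Sum.elim_inr, neg_mul_neg, mul_one, sub_self, mul_zero, zero_smul]
      rfl
  obtain ⟨f, hf⟩ := hOm
  have hB : mt R b (R.H.map (f ≫ f)) = Matrix.fromBlocks (F * G) 0 0 (G * F) := by
    rw [Functor.map_comp, mt_comp, hf, Matrix.fromBlocks_multiply]
    simp
  have key : ∀ n : ℕ, ∃ α : K, (∀ a a', LinearMap.trace K (R.H.obj P) (((F * G) ^ n) a a') =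
      if a = a' then α else 0) ∧ (∀ x x', LinearMap.trace K (R.H.obj P) (((G * F) ^ n) x x') =
      if x = x' then α else 0) := by
    intro n
    obtain ⟨α, hα⟩ := hLA1 K (R.H.obj P) (Fin p) (Fin q) _ F G _ hRel n
    obtain ⟨β, hβ⟩ := hLA2 K (R.H.obj P) (Fin p) (Fin q) _ F G _ hRel n
    obtain ⟨g, hg⟩ := mt_pow R b (f ≫ f) n
    rw [hB, Matrix.fromBlocks_diagonal_pow] at hg
    have h5 : R.H.map (ptr (g ≫ M ◁ r)) = α • pe R M + β • po R M := by
      rw [map_ptr_r R b g r hr, pe_eq R b h2 hs, po_eq R b h2 hs, Fintype.sum_sum_type, hg,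
        Finset.smul_sum, Finset.smul_sum]
      congr 1
      · refine Finset.sum_congr rfl fun a _ => ?_
        rw [Finset.sum_eq_single (Sum.inl a)]
        · rw [Matrix.fromBlocks_apply₁₁, hα, if_pos rfl]
        · rintro (t | t) _ ht
          · rw [Matrix.fromBlocks_apply₁₁, hα, if_neg (fun h => ht (by rw [h])), zero_smul]
          · rw [Matrix.fromBlocks_apply₁₂, Matrix.zero_apply, map_zero, zero_smul]
        · intro h
          exact absurd (Finset.mem_univ _) h
      · refine Finset.sum_congr rfl fun a _ => ?_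
        rw [Finset.sum_eq_single (Sum.inr a)]
        · rw [Matrix.fromBlocks_apply₂₂, hβ, if_pos rfl]
        · rintro (t | t) _ ht
          · rw [Matrix.fromBlocks_apply₂₁, Matrix.zero_apply, map_zero, zero_smul]
          · rw [Matrix.fromBlocks_apply₂₂, hβ, if_neg (fun h => ht (by rw [h])), zero_smul]
        · intro h
          exact absurd (Finset.mem_univ _) h
    have h6 : α = β := by
      by_contra hne'
      exact hC (hRAT C K R hU M _ α β hχ hpe hpo h5 hne')
    exact ⟨α, hα, by rw [h6]; exact hβ⟩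
  obtain ⟨hcyc, -, hnil, -⟩ := hLA3 K (R.H.obj P) (Fin p) (Fin q)
  have hN : IsNilpotent (G * F) := by
    apply hnil
    intro n
    obtain ⟨α, hα, hβ⟩ := key (n + 1)
    have h7 := hcyc F G n
    simp only [hα, hβ, if_true, Finset.sum_const, Finset.card_univ, Fintype.card_fin,
      nsmul_eq_mul] at h7 ⊢
    have h8 : ((p : K) - q) * α = 0 := by rw [sub_mul, h7, sub_self]
    rw [(mul_eq_zero.mp h8).resolve_left hpq, mul_zero]
  obtain ⟨hF0, hG0⟩ := hLA4 hLA3 K (R.H.obj P) (Fin p) (Fin q) _ F G _ hRel hN (by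
    rw [Fintype.card_fin, Fintype.card_fin]
    rintro rfl
    exact hpq (sub_self _))
  obtain ⟨c, hc1, hc2⟩ := hLA5 K (R.H.obj P) (Fin p) (Fin q) _ F G _ hRel hF0 hG0
  apply hne (ModuleCat.ofHom c)
  apply mt_inj R b
  have h9 : ∀ z y, mt R b (bx R (𝟙 (R.H.obj M)) (ModuleCat.ofHom c)) z y =
      if z = y then c else 0 := by
    intro z y
    rw [mt, cm_wl]
    split_ifs <;> rfl
  ext1 z y
  rw [h9]
  rcases z with z | z <;> rcases y with y | y
  · have := hc1 z y
    rw [Matrix.toBlocks₁₁, Matrix.of_apply] at this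
    rw [← hT, this]
    simp
  · have := congrFun (congrFun hF0 z) y
    rw [hF, Matrix.toBlocks₁₂, Matrix.of_apply] at this
    rw [← hT, this]
    simp
  · have := congrFun (congrFun hG0 z) y
    rw [hG, Matrix.toBlocks₂₁, Matrix.of_apply] at this
    rw [← hT, this]
    simp
  · have := hc2 z y
    rw [Matrix.toBlocks₂₂, Matrix.of_apply] at this
    rw [← hT, this]
    simp

end

end Pool.Agent.W2helper16.GL
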