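import Pool.Agent.W2helper16.GL.Cm

/-!
# The relation of a `gl(M)`-action in terms of components
-/

set_option autoImplicit false
set_option linter.unusedSectionVars false
set_option linter.unusedSimpArgs false
set_option backward.isDefEq.respectTransparency false
set_option backward.defeqAttrib.useBackward true

open CategoryTheory Limits MonoidalCategory
open Pool.Agent.Y112.SR Pool.Agent.Y112.SC Pool.Agent.Y112.KD

namespace Pool.Agent.W2helper16.GL

universe u v w

open Functor.LaxMonoidal Functor.OplaxMonoidal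

section

variable {C : Type u} [Category.{v} C] [MonoidalCategory C] [SymmetricCategory C]

/-- The symmetry of the first two factors of `M ⊗ (M ⊗ P)`. -/
def sf (M P : C) : M ⊗ (M ⊗ P) ⟶ M ⊗ (M ⊗ P) :=
  (α_ M M P).inv ≫ (β_ M M).hom ▷ P ≫ (α_ M M P).hom

end

section

variable {C : Type u} [Category.{v} C] [Preadditive C] [MonoidalCategory C] [SymmetricCategory C]
  {K : Type w} [Field K]

/-- `Ω : M ⊗ P ⟶ M ⊗ P` is the coupling of an action of the Lie algebra `gl(M) = M ⊗ Mᘁ` on the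
realisation of `P`. In `End (M ⊗ (M ⊗ P))` let `Ω₂₃ = M ◁ Ω`, let `τ` be the symmetry of the two
factors `M` and `Ω₁₃ = τ Ω₂₃ τ`; the condition is that `Ω₁₃ ∘ Ω₂₃ - Ω₂₃ ∘ Ω₁₃ = Ω₂₃ ∘ τ - τ ∘ Ω₂₃`
holds in the realisation (for morphisms `a : (M ⊗ Mᘁ) ⊗ P ⟶ P` and `Ω` which correspond to each
other by duality this says that `a` is an action of the Lie algebra `M ⊗ Mᘁ`). -/
def IsGlAction (R : SuperRealisation C K) {M P : C} (Ω : M ⊗ P ⟶ M ⊗ P) : Prop :=
  R.H.map (M ◁ Ω ≫ sf M P ≫ M ◁ Ω ≫ sf M P - sf M P ≫ M ◁ Ω ≫ sf M P ≫ M ◁ Ω) =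
    R.H.map (sf M P ≫ M ◁ Ω - M ◁ Ω ≫ sf M P)

end

section

variable {C : Type u} [Category.{v} C] [Preadditive C] [MonoidalCategory C] [SymmetricCategory C]
  {K : Type w} [Field K] (R : SuperRealisation C K) {M P : C} {ι : Type} [Fintype ι]
  [DecidableEq ι] (b : Module.Basis ι K (R.H.obj M))

lemma cm_zero (z y : ι) : cm R b (0 : R.H.obj (M ⊗ P) ⟶ R.H.obj (M ⊗ P)) z y = 0 := by
  have := cm_smul R b (0 : K) (0 : R.H.obj (M ⊗ P) ⟶ R.H.obj (M ⊗ P)) z y
  simpa using this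

lemma cm_sub (X Y : R.H.obj (M ⊗ P) ⟶ R.H.obj (M ⊗ P)) (z y : ι) :
    cm R b (X - Y) z y = cm R b X z y - cm R b Y z y := by
  have h := cm_add R b (X - Y) Y z y
  rw [sub_add_cancel] at h
  rw [h, add_sub_cancel_right]

lemma cm_sum {κ : Type} (s : Finset κ) (X : κ → (R.H.obj (M ⊗ P) ⟶ R.H.obj (M ⊗ P))) (z y : ι) :
    cm R b (∑ i ∈ s, X i) z y = ∑ i ∈ s, cm R b (X i) z y := by
  classical
  induction s using Finset.induction_on with
  | empty => simp only [Finset.sum_empty]; exact cm_zero R b z y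
  | insert a s ha ih => rw [Finset.sum_insert ha, Finset.sum_insert ha, cm_add, ih]

lemma coord_EE (z y u x : ι) : b.coord z ((EE R b u x).hom (b y)) =
    if y = x ∧ z = u then (1 : K) else 0 := by
  rw [EE_basis]
  by_cases h1 : y = x
  · rw [if_pos h1, Module.Basis.coord_apply, Module.Basis.repr_self, Finsupp.single_apply]
    by_cases h2 : z = u
    · rw [if_pos h2.symm, if_pos ⟨h1, h2⟩]
    · rw [if_neg (fun h => h2 h.symm), if_neg (fun h => h2 h.2)]
  · rw [if_neg h1, map_zero, if_neg (fun h => h1 h.1)]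

lemma cm_E (u x z y : ι) (g : R.H.obj P ⟶ R.H.obj P) : cm R b (bx R (EE R b u x) g) z y =
    if y = x ∧ z = u then g else 0 := by
  rw [cm_bx, coord_EE]
  split_ifs <;> simp

lemma cm_L (x v z y : ι) (X : R.H.obj (M ⊗ P) ⟶ R.H.obj (M ⊗ P)) :
    cm R b (bx R (EE R b x v) (𝟙 _) ≫ X) z y = if y = v then cm R b X z x else 0 := by
  rw [cm_comp, Finset.sum_eq_single x]
  · rw [cm_E]
    by_cases h : y = v
    · rw [if_pos ⟨h, rfl⟩, if_pos h, Category.id_comp]
    · rw [if_neg (fun h' => h h'.1), if_neg h, zero_comp]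
  · intro t _ ht
    rw [cm_E, if_neg (fun h' => ht h'.2), zero_comp]
  · intro h
    exact absurd (Finset.mem_univ _) h

lemma cm_R (v u z y : ι) (X : R.H.obj (M ⊗ P) ⟶ R.H.obj (M ⊗ P)) :
    cm R b (X ≫ bx R (EE R b v u) (𝟙 _)) z y = if z = v then cm R b X u y else 0 := by
  rw [cm_comp, Finset.sum_eq_single u]
  · rw [cm_E]
    by_cases h : z = v
    · rw [if_pos ⟨rfl, h⟩, if_pos h, Category.comp_id]
    · rw [if_neg (fun h' => h h'.2), if_neg h, comp_zero]
  · intro t _ ht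
    rw [cm_E, if_neg (fun h' => ht h'.1), comp_zero]
  · intro h
    exact absurd (Finset.mem_univ _) h

lemma cm_M (x v z y : ι) (X Y : R.H.obj (M ⊗ P) ⟶ R.H.obj (M ⊗ P)) :
    cm R b (X ≫ bx R (EE R b x v) (𝟙 _) ≫ Y) z y = cm R b X v y ≫ cm R b Y z x := by
  rw [cm_comp, Finset.sum_eq_single v]
  · rw [cm_L, if_pos rfl]
  · intro t _ ht
    rw [cm_L, if_neg ht, comp_zero]
  · intro h
    exact absurd (Finset.mem_univ _) h

/-- The sign of the super symmetry. -/
noncomputable def eps (sg : ι → K) (x y : ι) : K := 2⁻¹ * (1 + sg x + sg y - sg x * sg y)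

variable {sg : ι → K}

lemma map_braid (h2 : (2 : K) ≠ 0) (hs : ∀ x, (R.par M).hom (b x) = sg x • b x) :
    R.H.map (β_ M M).hom = ∑ x, ∑ y, eps sg x y • bx R (EE R b y x) (EE R b x y) := by
  have h3 := R.symm M M
  have h4 : (2 : K) • (μ R.H M M ≫ R.H.map (β_ M M).hom ≫ δ R.H M M) =
      (𝟙 _ + R.par M ▷ R.H.obj M + R.H.obj M ◁ R.par M - (R.par M ⊗ₘ R.par M)) ≫
      (β_ (R.H.obj M) (R.H.obj M)).hom := by
    have h5 := congrArg (fun z => z ≫ δ R.H M M) h3
    simpa using h5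
  apply ct_inj R
  apply TensorProduct.ext
  apply b.ext
  intro x
  apply b.ext
  intro y
  change ct R (R.H.map (β_ M M).hom) (b x ⊗ₜ b y) =
    ct R (∑ x, ∑ y, eps sg x y • bx R (EE R b y x) (EE R b x y)) (b x ⊗ₜ b y)
  have h6 : (2 : K) • ct R (R.H.map (β_ M M).hom) (b x ⊗ₜ b y) =
      (1 + sg x + sg y - sg x * sg y) • (b y ⊗ₜ[K] b x) := by
    have h7 := LinearMap.congr_fun (congrArg ModuleCat.Hom.hom h4) (b x ⊗ₜ b y)
    refine Eq.trans (Eq.trans rfl h7) ?_
    have h8 : (𝟙 (R.H.obj M ⊗ R.H.obj M) + R.par M ▷ R.H.obj M + R.H.obj M ◁ R.par M -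
        (R.par M ⊗ₘ R.par M)).hom (b x ⊗ₜ b y) = (b x ⊗ₜ[K] b y) +
        ((R.par M).hom (b x) ⊗ₜ[K] b y) + (b x ⊗ₜ[K] (R.par M).hom (b y)) -
        ((R.par M).hom (b x) ⊗ₜ[K] (R.par M).hom (b y)) := by
      rw [ModuleCat.hom_sub, ModuleCat.hom_add, ModuleCat.hom_add]
      rfl
    rw [ModuleCat.hom_comp]
    refine (congrArg (β_ (R.H.obj M) (R.H.obj M)).hom.hom h8).trans ?_
    rw [map_sub, map_add, map_add]
    change (b y ⊗ₜ[K] b x) + (b y ⊗ₜ[K] (R.par M).hom (b x)) + ((R.par M).hom (b y) ⊗ₜ[K] b x) -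
      ((R.par M).hom (b y) ⊗ₜ[K] (R.par M).hom (b x)) = _
    rw [hs, hs, TensorProduct.tmul_smul, ← TensorProduct.smul_tmul', TensorProduct.smul_tmul_smul]
    module
  have h8 : ct R (R.H.map (β_ M M).hom) (b x ⊗ₜ b y) = eps sg x y • (b y ⊗ₜ[K] b x) := by
    have h9 := congrArg (fun z => (2 : K)⁻¹ • z) h6
    simp only [smul_smul, inv_mul_cancel₀ h2, one_smul] at h9
    rw [h9, eps]
  rw [h8, ct_sum, LinearMap.sum_apply, Finset.sum_eq_single x]
  · rw [ct_sum, LinearMap.sum_apply, Finset.sum_eq_single y]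
    · have h10 : ct R (eps sg x y • bx R (EE R b y x) (EE R b x y)) =
          eps sg x y • ct R (bx R (EE R b y x) (EE R b x y)) := by
        rw [ct, Linear.smul_comp, Linear.comp_smul]
        rfl
      rw [h10, LinearMap.smul_apply, ct_bx, EE_basis, EE_basis, if_pos rfl, if_pos rfl]
    · intro t _ ht
      have h10 : ct R (eps sg x t • bx R (EE R b t x) (EE R b x t)) =
          eps sg x t • ct R (bx R (EE R b t x) (EE R b x t)) := by
        rw [ct, Linear.smul_comp, Linear.comp_smul]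
        rfl
      rw [h10, LinearMap.smul_apply, ct_bx, EE_basis, EE_basis, if_pos rfl,
        if_neg (fun h => ht h.symm), TensorProduct.tmul_zero, smul_zero]
    · intro h
      exact absurd (Finset.mem_univ _) h
  · intro t _ ht
    rw [ct_sum, LinearMap.sum_apply]
    refine Finset.sum_eq_zero fun s _ => ?_
    have h10 : ct R (eps sg t s • bx R (EE R b s t) (EE R b t s)) =
        eps sg t s • ct R (bx R (EE R b s t) (EE R b t s)) := by
      rw [ct, Linear.smul_comp, Linear.comp_smul]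
      rfl
    rw [h10, LinearMap.smul_apply, ct_bx, EE_basis, if_neg (fun h => ht h.symm),
      TensorProduct.zero_tmul, smul_zero]
  · intro h
    exact absurd (Finset.mem_univ _) h

lemma bx_sum_left {κ : Type} {Q X : C} (s : Finset κ) (f : κ → (R.H.obj Q ⟶ R.H.obj Q))
    (g : R.H.obj X ⟶ R.H.obj X) : bx R (∑ i ∈ s, f i) g = ∑ i ∈ s, bx R (f i) g := by
  classical
  induction s using Finset.induction_on with
  | empty => simp only [Finset.sum_empty]; exact bx_zero_left R g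
  | insert a s ha ih => rw [Finset.sum_insert ha, Finset.sum_insert ha, bx_add_left, ih]

/-- The realisation of the symmetry of the first two factors. -/
lemma map_sf (h2 : (2 : K) ≠ 0) (hs : ∀ x, (R.par M).hom (b x) = sg x • b x) :
    R.H.map (sf M P) =
      ∑ x, ∑ y, eps sg x y • bx R (EE R b y x) (bx R (EE R b x y) (𝟙 (R.H.obj P))) := by
  have h1 : R.H.map (sf M P) = R.H.map (α_ M M P).inv ≫ bx R (R.H.map (β_ M M).hom) (𝟙 _) ≫
      R.H.map (α_ M M P).hom := by
    rw [sf, Functor.map_comp, Functor.map_comp, map_whiskerRight_eq]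
  rw [h1, map_braid R b h2 hs, bx_sum_left, Preadditive.sum_comp, Preadditive.comp_sum]
  refine Finset.sum_congr rfl fun x _ => ?_
  rw [bx_sum_left, Preadditive.sum_comp, Preadditive.comp_sum]
  refine Finset.sum_congr rfl fun y _ => ?_
  rw [bx_smul_left, Linear.smul_comp, Linear.comp_smul, bx_assoc, ← Functor.map_comp_assoc,
    Iso.inv_hom_id, CategoryTheory.Functor.map_id, Category.id_comp]

lemma cm_sf (h2 : (2 : K) ≠ 0) (hs : ∀ x, (R.par M).hom (b x) = sg x • b x) (u x : ι) :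
    cm R b (R.H.map (sf M P)) u x = eps sg x u • bx R (EE R b x u) (𝟙 (R.H.obj P)) := by
  rw [map_sf R b h2 hs, cm_sum, Finset.sum_eq_single x]
  · rw [cm_sum, Finset.sum_eq_single u]
    · rw [cm_smul, cm_E, if_pos ⟨rfl, rfl⟩]
    · intro t _ ht
      rw [cm_smul, cm_E, if_neg (fun h => ht h.2.symm), smul_zero]
    · intro h
      exact absurd (Finset.mem_univ _) h
  · intro t _ ht
    rw [cm_sum]
    refine Finset.sum_eq_zero fun s _ => ?_
    rw [cm_smul, cm_E, if_neg (fun h => ht h.1.symm), smul_zero]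
  · intro h
    exact absurd (Finset.mem_univ _) h

lemma map_wl {Q X : C} (g : X ⟶ X) : R.H.map (Q ◁ g) = bx R (𝟙 _) (R.H.map g) := by
  rw [← CategoryTheory.Functor.map_id, bx_map, id_tensorHom]

lemma cm_wl (g : R.H.obj P ⟶ R.H.obj P) (z y : ι) :
    cm R b (bx R (𝟙 (R.H.obj M)) g) z y = if z = y then g else 0 := by
  rw [cm_bx, ModuleCat.hom_id, LinearMap.id_apply, Module.Basis.coord_apply,
    Module.Basis.repr_self, Finsupp.single_apply]
  by_cases h : z = y
  · rw [if_pos h.symm, if_pos h, one_smul]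
  · rw [if_neg (fun h' => h h'.symm), if_neg h, zero_smul]

lemma cm_wl_comp (g : R.H.obj P ⟶ R.H.obj P) (X : R.H.obj (M ⊗ P) ⟶ R.H.obj (M ⊗ P)) (z y : ι) :
    cm R b (bx R (𝟙 (R.H.obj M)) g ≫ X) z y = g ≫ cm R b X z y := by
  rw [cm_comp, Finset.sum_eq_single y]
  · rw [cm_wl, if_pos rfl]
  · intro t _ ht
    rw [cm_wl, if_neg ht, zero_comp]
  · intro h
    exact absurd (Finset.mem_univ _) h

lemma cm_comp_wl (g : R.H.obj P ⟶ R.H.obj P) (X : R.H.obj (M ⊗ P) ⟶ R.H.obj (M ⊗ P)) (z y : ι) :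
    cm R b (X ≫ bx R (𝟙 (R.H.obj M)) g) z y = cm R b X z y ≫ g := by
  rw [cm_comp, Finset.sum_eq_single z]
  · rw [cm_wl, if_pos rfl]
  · intro t _ ht
    rw [cm_wl, if_neg (fun h => ht h.symm), comp_zero]
  · intro h
    exact absurd (Finset.mem_univ _) h

/-- **The relation in terms of components.** -/
theorem rel_cm (h2 : (2 : K) ≠ 0) (hs : ∀ x, (R.par M).hom (b x) = sg x • b x)
    {Ω : M ⊗ P ⟶ M ⊗ P} (hΩ : IsGlAction R Ω) (u x z y : ι) :
    (eps sg x z * eps sg z u) • (cm R b (R.H.map Ω) z y ≫ cm R b (R.H.map Ω) u x) -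
      (eps sg x y * eps sg y u) • (cm R b (R.H.map Ω) u x ≫ cm R b (R.H.map Ω) z y) =
    eps sg x u • (if u = y then cm R b (R.H.map Ω) z x else 0) -
      eps sg x u • (if z = x then cm R b (R.H.map Ω) u y else 0) := by
  have h3 : R.H.map _ = R.H.map _ := hΩ
  simp only [Functor.map_sub, Functor.map_comp, map_wl] at h3
  have h4 := congrArg (fun X => cm R b (cm R b X u x) z y) h3
  simp only [cm_sub] at h4
  have e1 : ∀ v t : ι, cm R b (R.H.map (sf M P) ≫ bx R (𝟙 _) (R.H.map Ω) ≫ R.H.map (sf M P)) v t =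
      ∑ s, (eps sg t s * eps sg s v) • (bx R (EE R b t s) (𝟙 (R.H.obj P)) ≫ R.H.map Ω ≫
        bx R (EE R b s v) (𝟙 (R.H.obj P))) := by
    intro v t
    rw [cm_comp]
    refine Finset.sum_congr rfl fun s _ => ?_
    rw [cm_sf R b h2 hs, cm_wl_comp, cm_sf R b h2 hs, Linear.smul_comp, Linear.comp_smul,
      Linear.comp_smul, smul_smul]
  have e2 : cm R b (cm R b (bx R (𝟙 _) (R.H.map Ω) ≫ R.H.map (sf M P) ≫ bx R (𝟙 _) (R.H.map Ω) ≫
      R.H.map (sf M P)) u x) z y =
      (eps sg x z * eps sg z u) • (cm R b (R.H.map Ω) z y ≫ cm R b (R.H.map Ω) u x) := by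
    rw [cm_wl_comp, e1, Preadditive.comp_sum, cm_sum, Finset.sum_eq_single z]
    · rw [Linear.comp_smul, cm_smul, cm_M, cm_R, if_pos rfl]
    · intro s _ hs'
      rw [Linear.comp_smul, cm_smul, cm_M, cm_R, if_neg (fun h => hs' h.symm), comp_zero,
        smul_zero]
    · intro h
      exact absurd (Finset.mem_univ _) h
  have e3 : cm R b (cm R b (R.H.map (sf M P) ≫ bx R (𝟙 _) (R.H.map Ω) ≫ R.H.map (sf M P) ≫
      bx R (𝟙 _) (R.H.map Ω)) u x) z y =
      (eps sg x y * eps sg y u) • (cm R b (R.H.map Ω) u x ≫ cm R b (R.H.map Ω) z y) := by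
    have h5 : R.H.map (sf M P) ≫ bx R (𝟙 _) (R.H.map Ω) ≫ R.H.map (sf M P) ≫
        bx R (𝟙 (R.H.obj M)) (R.H.map Ω) = (R.H.map (sf M P) ≫ bx R (𝟙 _) (R.H.map Ω) ≫
          R.H.map (sf M P)) ≫ bx R (𝟙 _) (R.H.map Ω) := by
      simp only [Category.assoc]
    rw [h5, cm_comp_wl, e1, Preadditive.sum_comp, cm_sum, Finset.sum_eq_single y]
    · rw [Linear.smul_comp, cm_smul, Category.assoc, cm_L, if_pos rfl, Category.assoc, cm_M]
    · intro s _ hs'
      rw [Linear.smul_comp, cm_smul, Category.assoc, cm_L, if_neg (fun h => hs' h.symm), smul_zero]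
    · intro h
      exact absurd (Finset.mem_univ _) h
  have e4 : cm R b (cm R b (R.H.map (sf M P) ≫ bx R (𝟙 _) (R.H.map Ω)) u x) z y =
      eps sg x u • (if u = y then cm R b (R.H.map Ω) z x else 0) := by
    rw [cm_comp_wl, cm_sf R b h2 hs, Linear.smul_comp, cm_smul, cm_L]
    by_cases h : y = u
    · rw [if_pos h, if_pos h.symm]
    · rw [if_neg h, if_neg (fun h' => h h'.symm)]
  have e5 : cm R b (cm R b (bx R (𝟙 _) (R.H.map Ω) ≫ R.H.map (sf M P)) u x) z y =
      eps sg x u • (if z = x then cm R b (R.H.map Ω) u y else 0) := by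
    rw [cm_wl_comp, cm_sf R b h2 hs, Linear.comp_smul, cm_smul, cm_R]
  rw [e2, e3, e4, e5] at h4
  exact h4

end

end Pool.Agent.W2helper16.GL
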