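import Pool.Agent.Y112.KD.Real
import Pool.Agent.Y112.SC.Rat

/-!
# Project GL (MP_56c18a_ag, the sign conjecture): statements of the pieces

Target. `C` is a `ℚ`-linear rigid symmetric monoidal category with `End(1) = ℚ` and a super
realisation `H`. `M`, `P` are objects and `P` is a module over the Lie algebra `gl(M) = M ⊗ Mᘁ`,
given by its coupling `Ω : M ⊗ P ⟶ M ⊗ P`. If the Euler characteristic of `M` is not zero and
`sl(M)` acts non-trivially on `H(P)`, then `C⁺(P)` implies `C⁺(M)`.
-/

set_option autoImplicit false

open CategoryTheory Limits MonoidalCategory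
open Pool.Agent.Y112.SR Pool.Agent.Y112.SC Pool.Agent.Y112.KD

namespace Pool.Agent.W2helper16.GL

universe u v w

section la

variable {K : Type u} [Field K] {W : Type v} [AddCommGroup W] [Module K W]
  {A B : Type} [Fintype A] [Fintype B] [DecidableEq A] [DecidableEq B]

/-- The commutation relations of the components of the coupling of a `gl(A|B)`-module `W`
(`A` = even indices, `B` = odd indices). -/
structure Rel (E : Matrix A A (Module.End K W)) (F : Matrix A B (Module.End K W))
    (G : Matrix B A (Module.End K W)) (J : Matrix B B (Module.End K W)) : Prop where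
  eg : ∀ a a' a'' b, E a a' * G b a'' - G b a'' * E a a' = if a = a'' then G b a' else 0
  ef : ∀ a a' a'' b, E a a' * F a'' b - F a'' b * E a a' = -(if a' = a'' then F a b else 0)
  jf : ∀ b b' b'' a, J b b' * F a b'' - F a b'' * J b b' = -(if b = b'' then F a b' else 0)
  jg : ∀ b b' b'' a, J b b' * G b'' a - G b'' a * J b b' = if b' = b'' then G b a else 0
  gf : ∀ a a' b b', G b a * F a' b' + F a' b' * G b a =
    (if b = b' then E a' a else 0) - if a = a' then J b b' else 0

end la

/-- **Piece LA1.** The entrywise traces of the powers of `F G` form a scalar matrix.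
Proof: fix `x y : A`. The matrix `Δ = single x y 1 + diagonal (fun _ => E y x)` over `A` and the
matrix `Δ' = diagonal (fun _ => E y x)` over `B` satisfy `Δ * F = F * Δ'` (entry `(z,b)`:
`δ_zx F y b + [E y x, F z b] = 0` by `ef`) and `Δ' * G = G * Δ` (entry `(b,w)`:
`[E y x, G b w] = δ_yw G b x` by `eg`). So `Δ` commutes with `F * G` and with `X = (F * G) ^ n`.
Take traces of the entry `(z,w)`: `trace (E y x * X z w) = trace (X z w * E y x)`, so
`δ_zx trace (X y w) = δ_yw trace (X z x)`. Put `z = x`:
`trace (X y w) = δ_yw trace (X x x)` for all `x y w`. -/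
def StmLA1 : Prop :=
  ∀ (K : Type u) [Field K] (W : Type v) [AddCommGroup W] [Module K W] (A B : Type) [Fintype A]
    [Fintype B] [DecidableEq A] [DecidableEq B] (E : Matrix A A (Module.End K W))
    (F : Matrix A B (Module.End K W)) (G : Matrix B A (Module.End K W))
    (J : Matrix B B (Module.End K W)), Rel E F G J → ∀ n : ℕ, ∃ α : K, ∀ a a',
    LinearMap.trace K W (((F * G) ^ n) a a') = if a = a' then α else 0

/-- **Piece LA2.** The same for `G F`.
Proof: fix `x y : B`. `Δ = single x y 1 - diagonal (fun _ => J y x)` over `B`,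
`Δ' = - diagonal (fun _ => J y x)` over `A`; `Δ * G = G * Δ'` by `jg` and `Δ' * F = F * Δ` by `jf`.
(Alternatively deduce it from LA1 with `A`, `B` exchanged and `E, F, G, J` replaced by
`-J, G, F, -E` or similar signs.) -/
def StmLA2 : Prop :=
  ∀ (K : Type u) [Field K] (W : Type v) [AddCommGroup W] [Module K W] (A B : Type) [Fintype A]
    [Fintype B] [DecidableEq A] [DecidableEq B] (E : Matrix A A (Module.End K W))
    (F : Matrix A B (Module.End K W)) (G : Matrix B A (Module.End K W))
    (J : Matrix B B (Module.End K W)), Rel E F G J → ∀ n : ℕ, ∃ β : K, ∀ b b',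
    LinearMap.trace K W (((G * F) ^ n) b b') = if b = b' then β else 0

/-- **Piece LA3.** Traces and nilpotency (characteristic zero, finite dimension).
(i) cyclicity: the total trace of `(F G)^(n+1)` is that of `(G F)^(n+1)`
(`(F G)^(n+1) = F * ((G F)^n * G)`, expand the sums, `LinearMap.trace_mul_comm`);
(ii) an endomorphism all of whose positive powers have trace zero is nilpotent
(`minpoly = X^k * g` with `g(0) ≠ 0`, coprime, so there is a polynomial `h` such that `e = D * h(D)`
is an idempotent with `D ^ k * (1 - e) = 0` for some `k`; `trace e = 0`, so `e = 0` by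
`LinearMap.IsIdempotentElem.trace_eq_zero_iff`);
(iii) the same for matrices over `Module.End K W` and the total trace (identify
`Matrix B B (Module.End K W)` with `Module.End K (B → W)`, `X ↦ (f ↦ fun b => ∑ c, X b c (f c))`,
whose trace is `∑ b, trace (X b b)`);
(iv) a nilpotent matrix has total trace zero (`LinearMap.isNilpotent_trace_of_isNilpotent`). -/
def StmLA3 : Prop :=
  ∀ (K : Type u) [Field K] [CharZero K] (W : Type v) [AddCommGroup W] [Module K W]
    [Module.Finite K W] (A B : Type) [Fintype A] [Fintype B] [DecidableEq A] [DecidableEq B],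
    (∀ (F : Matrix A B (Module.End K W)) (G : Matrix B A (Module.End K W)) (n : ℕ),
      ∑ a, LinearMap.trace K W (((F * G) ^ (n + 1)) a a) =
        ∑ b, LinearMap.trace K W (((G * F) ^ (n + 1)) b b)) ∧
    (∀ D : Module.End K W, (∀ n : ℕ, LinearMap.trace K W (D ^ (n + 1)) = 0) → IsNilpotent D) ∧
    (∀ X : Matrix B B (Module.End K W),
      (∀ n : ℕ, ∑ b, LinearMap.trace K W ((X ^ (n + 1)) b b) = 0) → IsNilpotent X) ∧
    (∀ X : Matrix B B (Module.End K W), IsNilpotent X →
      ∑ b, LinearMap.trace K W (X b b) = 0)

/-- **Piece LA4.** If `G F` is nilpotent and `|A| ≠ |B|`, then `F = 0` and `G = 0`. (You may use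
`StmLA3` as a hypothesis: that is why it is in the statement.)
Proof. Put `p = |A|`, `q = |B|`, `c = p - q : K` and `D = q • ∑ a, E a a - p • ∑ b, J b b`. From
`ef`, `jf`: `[D, F a b] = c • F a b`, from `eg`, `jg`: `[D, G b a] = - c • G b a`. So
`D F = F (D + c)` and `D G = G (D - c)`, and `D` commutes with `G b a * F a b'`, so the diagonal
matrix `D` commutes with the matrix `G * F`, and `G * F * diagonal ((D + c)^k)` is nilpotent. By
LA3 (iv): `∑ b, ∑ a, trace (G b a * F a b * (D + c)^k) = 0`, that is (as `F (D + c)^k = D^k F` and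
by cyclicity) `∑ trace (D^k * F a b * G b a) = 0`. In the same way
`∑ trace (G b a * F a b * D^k) = 0`. By `gf`, `∑_{a,b} (G b a * F a b + F a b * G b a) =
∑_{a,b} (E a a - J b b) = D`. So `trace (D^(k+1)) = 0` for all `k` and `D` is nilpotent by LA3 (ii),
`D^k = 0`. Then `0 = D^k F = F (D + c)^k` and `D + c` is invertible (`c ≠ 0`, `D` nilpotent:
`IsNilpotent.isUnit_add_left_of_commute` or so), so `F a b = 0`. Similarly `G b a = 0`. -/
def StmLA4 : Prop :=
  StmLA3.{u, v} → ∀ (K : Type u) [Field K] [CharZero K] (W : Type v) [AddCommGroup W] [Module K W]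
    [Module.Finite K W] (A B : Type) [Fintype A] [Fintype B] [DecidableEq A] [DecidableEq B]
    (E : Matrix A A (Module.End K W))
    (F : Matrix A B (Module.End K W)) (G : Matrix B A (Module.End K W))
    (J : Matrix B B (Module.End K W)), Rel E F G J → IsNilpotent (G * F) →
    Fintype.card A ≠ Fintype.card B → F = 0 ∧ G = 0

/-- **Piece LA5.** If `F = 0` and `G = 0` then all of `E`, `J` is one scalar (from `gf`:
`0 = δ_bb' E a' a - δ_aa' J b b'`). -/
def StmLA5 : Prop :=
  ∀ (K : Type u) [Field K] (W : Type v) [AddCommGroup W] [Module K W] (A B : Type) [Fintype A]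
    [Fintype B] [DecidableEq A] [DecidableEq B] [Nonempty A] [Nonempty B]
    (E : Matrix A A (Module.End K W))
    (F : Matrix A B (Module.End K W)) (G : Matrix B A (Module.End K W))
    (J : Matrix B B (Module.End K W)), Rel E F G J → F = 0 → G = 0 →
    ∃ c : Module.End K W, (∀ a a', E a a' = if a = a' then c else 0) ∧
      ∀ b b', J b b' = if b = b' then c else 0

/-- **Piece RAT.** Let `End(1) = ℚ`, let `z` be an endomorphism of `M` whose realisation is `α` on
the even part and `β` on the odd part (`pe`, `po` of `Pool.Agent.Y112.SC`), where the even and the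
odd part have different dimensions (that is, the supertrace `trace (par M)` of the identity is not
zero) and are both non-zero. If `α ≠ β`, then `C⁺(M)` holds.
Proof. By `Pool.Agent.Y112.KD.real_tr` the supertraces `t_k = trace (H(z)^k par) = p α^k - q β^k`
are rational (`p`, `q` from `exists_pq`; `z^k` is a morphism of `C`). With `t₀ = p - q`:
`t₀ t₂ - t₁² = - p q (α - β)²` and `t₀ t₃ - t₁ t₂ = - p q (α + β) (α - β)²`; so `(α - β)²` is
rational and not zero, `α + β` is rational, and `(p + q) α = t₁ + q (α + β)` is rational, and so is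
`β`. Then `(z - β) / (α - β)` realises `pe`, so `C⁺(M)` (`R_smul`, `cplus_iff`). -/
def StmRAT : Prop :=
  ∀ (C : Type u) [Category.{v} C] [Preadditive C] [Linear ℚ C] [MonoidalCategory C]
    [MonoidalPreadditive C] [MonoidalLinear ℚ C] [SymmetricCategory C] [RightRigidCategory C]
    (K : Type w) [Field K] (R : SuperRealisation C K), UnitQ C → ∀ (M : C) (z : M ⟶ M) (α β : K),
    LinearMap.trace K (R.H.obj M) (R.par M).hom ≠ 0 → pe R M ≠ 0 → po R M ≠ 0 →
    R.H.map z = α • pe R M + β • po R M → α ≠ β → R.CPlus M

/-- **Piece BAS.** A homogeneous basis. Let `s` be an involution of a finite dimensional vector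
space `V` over a field of characteristic zero. There are natural numbers `p`, `q` and a basis of `V`
indexed by `Fin p ⊕ Fin q` such that `s` is `1` on the first part and `-1` on the second; moreover
`trace s = p - q`. -/
def StmBAS : Prop :=
  ∀ (K : Type u) [Field K] [CharZero K] (V : Type v) [AddCommGroup V] [Module K V]
    [Module.Finite K V] (s : Module.End K V), s * s = 1 →
    ∃ (p q : ℕ) (b : Module.Basis (Fin p ⊕ Fin q) K V), (∀ a, s (b (Sum.inl a)) = b (Sum.inl a)) ∧
      (∀ x, s (b (Sum.inr x)) = -b (Sum.inr x)) ∧ LinearMap.trace K V s = (p : K) - q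

end Pool.Agent.W2helper16.GL
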